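import Mathlib
import Pool.Agent.Helper290.Ultra

set_option autoImplicit false

namespace Pool.Agent.Results.MP_4ec73f_lc.Count

open Set Filter Pool.Agent.Helper290.Ultra

/-- A family of sets of reals is a Boolean algebra of sets of reals. -/
def IsAlgebra (B : Set (Set ℝ)) : Prop :=
  ∅ ∈ B ∧ univ ∈ B ∧ (∀ X ∈ B, ∀ Y ∈ B, X ∪ Y ∈ B) ∧ (∀ X ∈ B, Xᶜ ∈ B)

/-- Isomorphism of two families as abstract Boolean algebras: a bijection preserving finite
unions, finite intersections and complements. -/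
def Isomorphic (B C : Set (Set ℝ)) : Prop :=
  ∃ f : Set ℝ → Set ℝ, BijOn f B C ∧ (∀ X ∈ B, ∀ Y ∈ B, f (X ∪ Y) = f X ∪ f Y) ∧
    (∀ X ∈ B, ∀ Y ∈ B, f (X ∩ Y) = f X ∩ f Y) ∧ (∀ X ∈ B, f Xᶜ = (f X)ᶜ)

theorem IsAlgebra.inter {B : Set (Set ℝ)} (h : IsAlgebra B) {X Y : Set ℝ} (hX : X ∈ B)
    (hY : Y ∈ B) : X ∩ Y ∈ B := by
  have := h.2.2.2 _ (h.2.2.1 _ (h.2.2.2 _ hX) _ (h.2.2.2 _ hY))
  rwa [compl_union, compl_compl, compl_compl] at this

theorem isomorphic_refl (B : Set (Set ℝ)) : Isomorphic B B :=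
  ⟨id, bijOn_id B, fun _ _ _ _ => rfl, fun _ _ _ _ => rfl, fun _ _ => rfl⟩

theorem isomorphic_trans {B C D : Set (Set ℝ)} (h1 : Isomorphic B C) (h2 : Isomorphic C D) :
    Isomorphic B D := by
  obtain ⟨f, hf, f1, f2, f3⟩ := h1
  obtain ⟨g, hg, g1, g2, g3⟩ := h2
  refine ⟨g ∘ f, hg.comp hf, fun X hX Y hY => ?_, fun X hX Y hY => ?_, fun X hX => ?_⟩
  · simp only [Function.comp]
    rw [f1 X hX Y hY, g1 _ (hf.mapsTo hX) _ (hf.mapsTo hY)]
  · simp only [Function.comp]
    rw [f2 X hX Y hY, g2 _ (hf.mapsTo hX) _ (hf.mapsTo hY)]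
  · simp only [Function.comp]
    rw [f3 X hX, g3 _ (hf.mapsTo hX)]

theorem isomorphic_symm {B C : Set (Set ℝ)} (hB : IsAlgebra B)
    (h : Isomorphic B C) : Isomorphic C B := by
  obtain ⟨f, hf, f1, f2, f3⟩ := h
  have hinv := hf.invOn_invFunOn
  have hg : BijOn (Function.invFunOn f B) C B := hf.symm hinv.symm
  have key : ∀ X ∈ B, Function.invFunOn f B (f X) = X := fun X hX => hinv.1 hX
  have key2 : ∀ X ∈ C, f (Function.invFunOn f B X) = X := fun X hX => hinv.2 hX
  refine ⟨Function.invFunOn f B, hg, fun X hX Y hY => ?_, fun X hX Y hY => ?_, fun X hX => ?_⟩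
  · conv_lhs => rw [← key2 X hX, ← key2 Y hY]
    rw [← f1 _ (hg.mapsTo hX) _ (hg.mapsTo hY),
      key _ (hB.2.2.1 _ (hg.mapsTo hX) _ (hg.mapsTo hY))]
  · conv_lhs => rw [← key2 X hX, ← key2 Y hY]
    rw [← f2 _ (hg.mapsTo hX) _ (hg.mapsTo hY),
      key _ (hB.inter (hg.mapsTo hX) (hg.mapsTo hY))]
  · conv_lhs => rw [← key2 X hX]
    rw [← f3 _ (hg.mapsTo hX), key _ (hB.2.2.2 _ (hg.mapsTo hX))]

/-- The relation of being isomorphic, on the type of all Boolean algebras of sets of reals. -/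
def isoSetoid : Setoid {B : Set (Set ℝ) // IsAlgebra B} where
  r B C := Isomorphic B.1 C.1
  iseqv := ⟨fun B => isomorphic_refl B.1, fun {B _} h => isomorphic_symm B.2 h,
    fun h1 h2 => isomorphic_trans h1 h2⟩

theorem le_card_of_fibres {X Q : Type} (h : X → Q) (κ : Cardinal) (hX : Cardinal.aleph0 ≤ Cardinal.mk X)
    (hκ : κ < Cardinal.mk X) (hfib : ∀ x, Cardinal.mk {y // h y = h x} ≤ κ) :
    Cardinal.mk X ≤ Cardinal.mk Q := by
  by_contra hcon
  push Not at hcon
  have h1 : Cardinal.mk X = Cardinal.mk (Σ q : Q, {y : X // h y = q}) :=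
    Cardinal.mk_congr (Equiv.sigmaFiberEquiv h).symm
  have h2 : Cardinal.mk (Σ q : Q, {y : X // h y = q}) ≤ Cardinal.mk Q * κ := by
    rw [Cardinal.mk_sigma]
    refine (Cardinal.sum_le_sum _ (fun _ => κ) (fun q => ?_)).trans ?_
    · by_cases hq : ∃ x, h x = q
      · obtain ⟨x, rfl⟩ := hq
        exact hfib x
      · have : IsEmpty {y : X // h y = q} := ⟨fun y => hq ⟨y.1, y.2⟩⟩
        rw [Cardinal.mk_eq_zero]
        exact bot_le
    · simp
  have h3 : Cardinal.mk Q * κ < Cardinal.mk X := Cardinal.mul_lt_of_lt hX hcon hκ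
  exact absurd (h1.le.trans h2) (not_le.mpr h3)

theorem card_idx : Cardinal.mk (Idx ℝ) = Cardinal.mk ℝ := by
  have h1 : Cardinal.mk (Finset ℝ) = Cardinal.mk ℝ := Cardinal.mk_finset_of_infinite ℝ
  have h2 : Cardinal.mk (Finset (Finset ℝ)) = Cardinal.mk ℝ := by
    rw [Cardinal.mk_finset_of_infinite, h1]
  rw [Cardinal.mk_prod, h1, h2]
  simp [Cardinal.mul_eq_self]

/-- An algebra containing all singletons is determined, within its isomorphism class, by a
permutation of the reals. -/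
theorem exists_map {B C : Set (Set ℝ)} (hB : IsAlgebra B)
    (hB1 : ∀ x : ℝ, {x} ∈ B) (hC1 : ∀ x : ℝ, {x} ∈ C) (h : Isomorphic B C) :
    ∃ π : ℝ → ℝ, C = (fun X => π '' X) '' B := by
  obtain ⟨f, hf, f1, f2, f3⟩ := h
  have f0 : f ∅ = ∅ := by
    have h1 := f2 ∅ hB.1 univ hB.2.1
    have h2 := f3 ∅ hB.1
    rw [compl_empty] at h2
    rw [empty_inter, h2, inter_compl_self] at h1
    exact h1
  have hne : ∀ X ∈ B, X.Nonempty → (f X).Nonempty := by
    intro X hX hXn
    by_contra hcon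
    rw [not_nonempty_iff_eq_empty, ← f0] at hcon
    exact hXn.ne_empty (hf.injOn hX hB.1 hcon)
  have hmono : ∀ X ∈ B, ∀ Y ∈ B, (X ⊆ Y ↔ f X ⊆ f Y) := by
    intro X hX Y hY
    rw [← inter_eq_left, ← inter_eq_left, ← f2 X hX Y hY]
    constructor
    · intro h; rw [h]
    · intro h; exact hf.injOn (hB.inter hX hY) hX h
  have hsing : ∀ x : ℝ, ∃ y : ℝ, f {x} = {y} := by
    intro x
    obtain ⟨y, hy⟩ := hne {x} (hB1 x) (singleton_nonempty x)
    refine ⟨y, ?_⟩
    obtain ⟨Z, hZ, hZy⟩ := hf.surjOn (hC1 y)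
    have h1 : f Z ⊆ f {x} := by rw [hZy]; exact singleton_subset_iff.mpr hy
    have h2 : Z ⊆ {x} := (hmono Z hZ {x} (hB1 x)).mpr h1
    rcases subset_singleton_iff_eq.mp h2 with h3 | h3
    · exfalso
      rw [h3, f0] at hZy
      exact (singleton_ne_empty y) hZy.symm
    · rw [← h3, hZy]
  choose π hπ using hsing
  have hπs : Function.Surjective π := by
    intro y
    obtain ⟨Z, hZ, hZy⟩ := hf.surjOn (hC1 y)
    have hZn : Z.Nonempty := by
      by_contra hcon
      rw [not_nonempty_iff_eq_empty] at hcon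
      rw [hcon, f0] at hZy
      exact (singleton_ne_empty y) hZy.symm
    obtain ⟨x, hx⟩ := hZn
    refine ⟨x, ?_⟩
    have h1 : f {x} ⊆ f Z := (hmono _ (hB1 x) Z hZ).mp (singleton_subset_iff.mpr hx)
    rw [hπ, hZy] at h1
    simpa using h1
  have himg : ∀ X ∈ B, f X = π '' X := by
    intro X hX
    ext y
    constructor
    · intro hy
      obtain ⟨x, rfl⟩ := hπs y
      refine ⟨x, ?_, rfl⟩
      have : f {x} ⊆ f X := by rw [hπ]; exact singleton_subset_iff.mpr hy
      exact singleton_subset_iff.mp ((hmono _ (hB1 x) X hX).mpr this)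
    · rintro ⟨x, hx, rfl⟩
      have : f {x} ⊆ f X := (hmono _ (hB1 x) X hX).mp (singleton_subset_iff.mpr hx)
      rw [hπ] at this
      exact singleton_subset_iff.mp this
  refine ⟨π, ?_⟩
  rw [← hf.image_eq]
  exact image_congr himg

/-- The number of isomorphism classes of Boolean algebras of sets of reals is `2 ^ (2 ^ 𝔠)`. -/
theorem result : Cardinal.mk (Quotient isoSetoid) =
    (2 : Cardinal.{0}) ^ ((2 : Cardinal.{0}) ^ Cardinal.continuum.{0}) := by
  have hXX : Cardinal.mk (Set (Set ℝ)) =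
      (2 : Cardinal.{0}) ^ ((2 : Cardinal.{0}) ^ Cardinal.continuum.{0}) := by
    rw [Cardinal.mk_set, Cardinal.mk_set, Cardinal.mk_real]
  apply le_antisymm
  · rw [← hXX]
    exact (Cardinal.mk_quotient_le).trans (Cardinal.mk_subtype_le _)
  · rw [← hXX]
    obtain ⟨U, hU1, hU2⟩ := exists_ultrafilters ℝ
    obtain ⟨ε⟩ := Cardinal.eq.mp card_idx
    let V : Set (Set ℝ) → Ultrafilter ℝ := fun J => (U J).map ε
    have hV1 : Function.Injective V := by
      intro J J' h
      apply hU1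
      have := congrArg (Ultrafilter.map ε.symm) h
      simpa [V, Ultrafilter.map_map] using this
    have hV2 : ∀ J x, {x} ∉ V J := by
      intro J x hx
      apply hU2 J (ε.symm x)
      have : ε ⁻¹' {x} ∈ U J := hx
      have h2 : ε ⁻¹' {x} = {ε.symm x} := by
        ext y; simp [Equiv.eq_symm_apply]
      rwa [h2] at this
    let B : Set (Set ℝ) → Set (Set ℝ) := fun J => {Y | Y ∈ V J ↔ Y ∈ V ∅}
    have hB : ∀ J, IsAlgebra (B J) := by
      intro J
      refine ⟨?_, ?_, ?_, ?_⟩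
      · exact ⟨fun h => absurd h Ultrafilter.empty_notMem, fun h => absurd h Ultrafilter.empty_notMem⟩
      · exact ⟨fun _ => univ_mem, fun _ => univ_mem⟩
      · intro X hX Y hY
        change X ∪ Y ∈ V J ↔ X ∪ Y ∈ V ∅
        rw [Ultrafilter.union_mem_iff, Ultrafilter.union_mem_iff]
        exact or_congr hX hY
      · intro X hX
        change Xᶜ ∈ V J ↔ Xᶜ ∈ V ∅
        rw [Ultrafilter.compl_mem_iff_notMem, Ultrafilter.compl_mem_iff_notMem]
        exact not_congr hX
    have hBs : ∀ J (x : ℝ), {x} ∈ B J := fun J x => ⟨fun h => absurd h (hV2 _ _), fun h => absurd h (hV2 _ _)⟩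
    have hBinj : Function.Injective B := by
      intro J J' h
      apply hV1
      ext Y
      have := Set.ext_iff.mp h Y
      change ((Y ∈ V J ↔ Y ∈ V ∅) ↔ (Y ∈ V J' ↔ Y ∈ V ∅)) at this
      tauto
    refine le_card_of_fibres (fun J => Quotient.mk isoSetoid ⟨B J, hB J⟩) ((2 : Cardinal.{0}) ^ Cardinal.continuum.{0}) ?_ ?_ ?_
    · rw [hXX]
      exact (Cardinal.aleph0_le_continuum).trans ((Cardinal.cantor _).le.trans (Cardinal.cantor _).le)
    · rw [hXX]; exact Cardinal.cantor _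
    · intro J
      have h1 : Cardinal.mk (ℝ → ℝ) = (2 : Cardinal.{0}) ^ Cardinal.continuum.{0} := by
        rw [← Cardinal.power_def, Cardinal.mk_real]
        exact Cardinal.power_self_eq Cardinal.aleph0_le_continuum
      rw [← h1]
      have hch : ∀ y : {y // Quotient.mk isoSetoid ⟨B y, hB y⟩ = Quotient.mk isoSetoid ⟨B J, hB J⟩},
          ∃ π : ℝ → ℝ, B y.1 = (fun X => π '' X) '' (B J) := by
        intro y
        have h2 : Isomorphic (B y.1) (B J) := Quotient.exact y.2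
        exact exists_map (hB _) (hBs _) (hBs _) (isomorphic_symm (hB _) h2)
      choose g hg using hch
      refine Cardinal.mk_le_of_injective (f := g) (fun y z hyz => ?_)
      apply Subtype.ext
      apply hBinj
      rw [hg y, hg z, hyz]

end Pool.Agent.Results.MP_4ec73f_lc.Count
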